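import Pool.Agent.H902R3.XI.Stmts

/-!
# XI project, task Approx (helper349)
-/

set_option autoImplicit false

open Complex MeasureTheory Filter Topology Set Metric
open scoped Real ENNReal

namespace Pool.Agent.H902R3.XI.ApproxAux

theorem ell_nonneg (n : ℕ) : 0 ≤ ell n := by
  unfold ell
  apply Real.log_nonneg
  have : (0 : ℝ) ≤ n := n.cast_nonneg
  linarith

theorem ell_zero : ell 0 = 0 := by
  unfold ell
  simp

theorem summable_exp : Summable fun n : ℕ => Real.exp (-2 * ell n) := by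
  have h : ∀ n : ℕ, Real.exp (-2 * ell n) = 1 / ((n + 1 : ℕ) : ℝ) ^ 2 := by
    intro n
    unfold ell
    have hp : (0 : ℝ) < (n : ℝ) + 1 := by positivity
    rw [show -2 * Real.log ((n : ℝ) + 1) = -(Real.log ((n : ℝ) + 1) + Real.log ((n : ℝ) + 1)) by
      ring, Real.exp_neg, Real.exp_add, Real.exp_log hp]
    push_cast
    rw [one_div, sq]
  simp_rw [h]
  exact (summable_nat_add_iff 1).2 ((Real.summable_one_div_nat_pow (p := 2)).2 (by norm_num))

/-- the terms of `Wp` -/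
noncomputable def wp (τ T σ : ℝ) (n : ℕ) : ℝ :=
  Real.exp (-σ * ell n - τ * (ell n) ^ 2 + 2 * τ * ell n * LL T)

theorem wp_summable {τ : ℝ} (hτ : 0 < τ) (T σ : ℝ) : Summable (wp τ T σ) := by
  have h0 : Summable fun n : ℕ =>
      Real.exp ((-σ + 2 * τ * LL T + 2) ^ 2 / (4 * τ)) * Real.exp (-2 * ell n) :=
    summable_exp.mul_left _
  refine Summable.of_nonneg_of_le (fun n => (Real.exp_pos _).le) (fun n => ?_) h0
  rw [← Real.exp_add]
  apply Real.exp_le_exp.2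
  have h1 : 0 ≤ (2 * τ * ell n - (-σ + 2 * τ * LL T + 2)) ^ 2 / (4 * τ) := by positivity
  have h2 : (2 * τ * ell n - (-σ + 2 * τ * LL T + 2)) ^ 2 / (4 * τ) =
      (-σ + 2 * τ * LL T + 2) ^ 2 / (4 * τ) - ell n * (-σ + 2 * τ * LL T + 2) +
        τ * (ell n) ^ 2 := by
    field_simp
    ring
  rw [h2] at h1
  linarith

theorem one_le_Wp {τ : ℝ} (hτ : 0 < τ) (T σ : ℝ) : 1 ≤ Wp τ T σ := by
  have h := (wp_summable hτ T σ).le_tsum 0 (fun j _ => (Real.exp_pos _).le)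
  have h0 : wp τ T σ 0 = 1 := by
    unfold wp
    rw [ell_zero]
    simp
  rw [h0] at h
  exact h

/-- the terms of `W` -/
noncomputable def wt (τ T : ℝ) (s : ℂ) (n : ℕ) : ℂ :=
  cexp (-s * ell n - τ * (ell n) ^ 2 + 2 * τ * ell n * (LL T + π / 4 * I))

theorem norm_wt (τ T : ℝ) (s : ℂ) (n : ℕ) : ‖wt τ T s n‖ = wp τ T s.re n := by
  unfold wt wp
  rw [Complex.norm_exp]
  congr 1
  have h1 : ((ell n : ℂ) ^ 2).re = ell n ^ 2 := by
    rw [← ofReal_pow, ofReal_re]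
  simp only [add_re, sub_re, mul_re, neg_re, neg_im, ofReal_re, ofReal_im, I_re, I_im, add_im,
    mul_im, re_ofNat, im_ofNat, h1]
  have h2 : ((π : ℂ) / 4).re = π / 4 := by
    rw [show (π : ℂ) / 4 = ((π / 4 : ℝ) : ℂ) by push_cast; rfl, ofReal_re]
  have h3 : ((π : ℂ) / 4).im = 0 := by
    rw [show (π : ℂ) / 4 = ((π / 4 : ℝ) : ℂ) by push_cast; rfl, ofReal_im]
  rw [h3]
  ring

theorem a_near {T : ℝ} (hT : 0 < T) (s : ℂ) (h : ‖s - I * T‖ ≤ T / 4) :
    ‖a s - (LL T + π / 4 * I)‖ ≤ ‖s - I * T‖ / T := by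
  have hTc : (T : ℂ) ≠ 0 := by exact_mod_cast hT.ne'
  obtain ⟨z, hz⟩ : ∃ z : ℂ, z = (s - I * T) / (I * T) := ⟨_, rfl⟩
  have hzn : ‖z‖ = ‖s - I * T‖ / T := by
    rw [hz, norm_div, norm_mul, norm_I, one_mul, norm_real, Real.norm_of_nonneg hT.le]
  have hz4 : ‖z‖ ≤ 1 / 4 := by
    rw [hzn, div_le_iff₀ hT]
    linarith
  have hw := Complex.norm_log_one_add_half_le_self (z := z) (by linarith)
  obtain ⟨w, hwd⟩ : ∃ w : ℂ, w = log (1 + z) := ⟨_, rfl⟩
  rw [← hwd] at hw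
  have h1z : 1 + z ≠ 0 := by
    intro h0
    have : z = -1 := by linear_combination h0
    rw [this] at hz4
    norm_num at hz4
  have hexpw : cexp w = 1 + z := by rw [hwd, exp_log h1z]
  have hs : s = (1 + z) * (I * T) := by
    rw [hz]
    field_simp
    ring
  have hT2 : 0 < T / (2 * π) := by positivity
  have hlog : log (s / (2 * π)) = w + Real.log (T / (2 * π)) + π / 2 * I := by
    have he : s / (2 * π) = cexp (w + Real.log (T / (2 * π)) + π / 2 * I) := by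
      rw [exp_add, exp_add, hexpw, ← ofReal_exp, Real.exp_log hT2, exp_pi_div_two_mul_I, hs]
      push_cast
      ring
    rw [he]
    have him : (w + Real.log (T / (2 * π)) + π / 2 * I).im = w.im + π / 2 := by
      have h2 : ((π : ℂ) / 2).re = π / 2 := by
        rw [show (π : ℂ) / 2 = ((π / 2 : ℝ) : ℂ) by push_cast; rfl, ofReal_re]
      have h3 : ((π : ℂ) / 2).im = 0 := by
        rw [show (π : ℂ) / 2 = ((π / 2 : ℝ) : ℂ) by push_cast; rfl, ofReal_im]
      simp only [add_im, mul_im, I_re, I_im, ofReal_im, h2, h3]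
      ring
    have hwi : |w.im| ≤ 3 / 8 := (abs_im_le_norm w).trans (by linarith)
    have hpi := Real.pi_gt_three
    rw [abs_le] at hwi
    apply log_exp
    · rw [him]
      linarith [hwi.1]
    · rw [him]
      linarith [hwi.2]
  have ha : a s - (LL T + π / 4 * I) = w / 2 := by
    unfold a LL
    rw [hlog]
    push_cast
    ring
  rw [ha, norm_div, RCLike.norm_ofNat, ← hzn]
  have := norm_nonneg z
  linarith

theorem logsmall (K r : ℝ) (hr : 0 < r) : ∀ᶠ T : ℝ in atTop, K * Real.log T ≤ T ^ r := by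
  have h := (isLittleO_log_rpow_atTop hr).bound (c := 1 / (|K| + 1)) (by positivity)
  filter_upwards [h, eventually_ge_atTop (1 : ℝ)] with T hT hT1
  have h0 : 0 ≤ Real.log T := Real.log_nonneg hT1
  have h1 : 0 ≤ T ^ r := Real.rpow_nonneg (by linarith) _
  rw [Real.norm_of_nonneg h0, Real.norm_of_nonneg h1] at hT
  have h2 : (|K| + 1) * Real.log T ≤ T ^ r := by
    have hK : 0 < |K| + 1 := by positivity
    calc (|K| + 1) * Real.log T ≤ (|K| + 1) * (1 / (|K| + 1) * T ^ r) :=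
          mul_le_mul_of_nonneg_left hT hK.le
      _ = T ^ r := by field_simp
  have h3 : K * Real.log T ≤ |K| * Real.log T := mul_le_mul_of_nonneg_right (le_abs_self K) h0
  nlinarith

end Pool.Agent.H902R3.XI.ApproxAux

namespace Pool.Agent.H902R3.XI

open ApproxAux

theorem taskApprox (h1 : TaskA1) (h3 : TaskA3) (h4 : TaskA4) : TaskApprox := by
  intro τ hτ B hB
  obtain ⟨C₂, hC₂, T4, h4'⟩ := h4 τ hτ B hB
  obtain ⟨C, hC⟩ : ∃ C, C = max C₂ (max 2 ((B + τ + 3) / τ)) := ⟨_, rfl⟩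
  have hCC₂ : C₂ ≤ C := hC ▸ le_max_left _ _
  have hC2 : 2 ≤ C := hC ▸ (le_max_left _ _).trans (le_max_right _ _)
  have hCB : (B + τ + 3) / τ ≤ C := hC ▸ (le_max_right _ _).trans (le_max_right _ _)
  have hCB' : B + τ + 3 ≤ τ * C := by
    rw [div_le_iff₀ hτ] at hCB
    linarith
  obtain ⟨T3, h3'⟩ := h3 τ hτ B C hB (by linarith)
  obtain ⟨S, hS⟩ : ∃ S, S = ∑' n : ℕ, Real.exp (-2 * ell n) := ⟨_, rfl⟩
  have hSsum : HasSum (fun n : ℕ => Real.exp (-2 * ell n)) S := hS ▸ summable_exp.hasSum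
  have hev : ∀ᶠ T : ℝ in atTop, T4 ≤ T ∧ T3 ≤ T ∧ Real.exp 1 ≤ T ∧ S ≤ T ∧ (6 : ℝ) ^ 12 ≤ T ∧
      B * Real.log T ≤ T ^ (1 / 2 : ℝ) ∧ 8 * τ * C * Real.log T ≤ T ^ (1 / 6 : ℝ) ∧ 64 ≤ T := by
    filter_upwards [eventually_ge_atTop T4, eventually_ge_atTop T3,
      eventually_ge_atTop (Real.exp 1), eventually_ge_atTop S, eventually_ge_atTop ((6 : ℝ) ^ 12),
      logsmall B (1 / 2) (by norm_num), logsmall (8 * τ * C) (1 / 6) (by norm_num),
      eventually_ge_atTop (64 : ℝ)] with T e1 e2 e3 e4 e5 e6 e7 e8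
    exact ⟨e1, e2, e3, e4, e5, e6, e7, e8⟩
  obtain ⟨T₀, hT₀⟩ := eventually_atTop.1 hev
  refine ⟨T₀, fun T hT s hs1 hs2 => ?_⟩
  obtain ⟨e1, e2, e3, e4, e5, e6, e7, e8⟩ := hT₀ T hT
  have hT0 : 0 < T := by linarith
  have hlog : 1 ≤ Real.log T := by
    rw [Real.le_log_iff_exp_le hT0]
    exact e3
  have hsq : Real.sqrt T = T ^ (1 / 2 : ℝ) := Real.sqrt_eq_rpow T
  -- distance of `s` to `iT`
  have hdist : ‖s - I * T‖ ≤ 2 * T ^ (1 / 2 : ℝ) := by
    have hre : (s - I * T).re = s.re := by simp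
    have him : (s - I * T).im = s.im - T := by simp
    have h5 := Complex.norm_le_abs_re_add_abs_im (s - I * T)
    rw [hre, him] at h5
    rw [hsq] at hs1
    linarith
  have hsq8 : 8 * T ^ (1 / 2 : ℝ) ≤ T := by
    rw [← hsq]
    have h6 : (8 : ℝ) ≤ Real.sqrt T := by
      rw [show (8 : ℝ) = Real.sqrt 64 by
        rw [show (64 : ℝ) = 8 ^ 2 by norm_num, Real.sqrt_sq (by norm_num)]]
      exact Real.sqrt_le_sqrt e8
    nlinarith [Real.mul_self_sqrt hT0.le, Real.sqrt_nonneg T]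
  have hTT : T ^ (1 / 2 : ℝ) / T = T ^ (-(1 / 2) : ℝ) := by
    rw [div_eq_iff hT0.ne']
    nth_rewrite 3 [← Real.rpow_one T]
    rw [← Real.rpow_add hT0]
    norm_num
  have hδ : ‖a s - (LL T + π / 4 * I)‖ ≤ 2 * T ^ (-(1 / 2) : ℝ) := by
    refine (a_near hT0 s (by linarith)).trans ?_
    rw [← hTT, ← mul_div_assoc]
    exact div_le_div_of_nonneg_right hdist hT0.le
  obtain ⟨δ, hδd⟩ : ∃ δ : ℂ, δ = a s - (LL T + π / 4 * I) := ⟨_, rfl⟩
  rw [← hδd] at hδ
  have has : a s = (LL T + π / 4 * I) + δ := by rw [hδd]; ring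
  have hE0 : 0 ≤ ‖E τ s‖ := norm_nonneg _
  have hT13 : 0 ≤ T ^ (-(1 / 3) : ℝ) := Real.rpow_nonneg hT0.le _
  have hT13' : T ^ (-(1 / 3) : ℝ) ≤ 1 :=
    Real.rpow_le_one_of_one_le_of_nonpos (by linarith) (by norm_num)
  have hT16 : T ^ (1 / 6 : ℝ) * T ^ (-(1 / 2) : ℝ) = T ^ (-(1 / 3) : ℝ) := by
    rw [← Real.rpow_add hT0]
    norm_num
  -- small `n`
  have hsmall : ∀ n : ℕ, ell n ≤ C * Real.log T →
      ‖Tm τ n s - E τ s * wt τ T s n‖ ≤ 4 * T ^ (-(1 / 3) : ℝ) * ‖E τ s‖ * wp τ T s.re n := by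
    intro n hn
    have hl := ell_nonneg n
    obtain ⟨x, hx⟩ : ∃ x : ℂ, x = 2 * τ * ell n * δ := ⟨_, rfl⟩
    have hxn : 2 * ‖x‖ ≤ T ^ (-(1 / 3) : ℝ) := by
      rw [hx]
      rw [norm_mul, norm_mul, norm_mul, norm_real, norm_real, Real.norm_of_nonneg hτ.le,
        Real.norm_of_nonneg hl, RCLike.norm_ofNat]
      have h7 : 0 ≤ T ^ (-(1 / 2) : ℝ) := Real.rpow_nonneg hT0.le _
      calc 2 * (2 * τ * ell n * ‖δ‖) ≤ 2 * (2 * τ * (C * Real.log T) *
            (2 * T ^ (-(1 / 2) : ℝ))) := by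
            have h8 : 2 * τ * ell n ≤ 2 * τ * (C * Real.log T) :=
              mul_le_mul_of_nonneg_left hn (by positivity)
            have h9 : 0 ≤ 2 * τ * (C * Real.log T) := by positivity
            exact mul_le_mul_of_nonneg_left (mul_le_mul h8 hδ (norm_nonneg _) h9) (by norm_num)
        _ = (8 * τ * C * Real.log T) * T ^ (-(1 / 2) : ℝ) := by ring
        _ ≤ T ^ (1 / 6 : ℝ) * T ^ (-(1 / 2) : ℝ) := mul_le_mul_of_nonneg_right e7 h7
        _ = _ := hT16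
    have hx1 : ‖x‖ ≤ 1 := by linarith [norm_nonneg x]
    have hex := Complex.norm_exp_sub_one_le hx1
    have hex3 : ‖cexp x‖ ≤ 3 := by
      have : cexp x = (cexp x - 1) + 1 := by ring
      rw [this]
      refine (norm_add_le _ _).trans ?_
      rw [norm_one]
      linarith
    have hterm : cexp (-s * ell n - τ * (ell n) ^ 2 + 2 * τ * ell n * a s) =
        wt τ T s n * cexp x := by
      unfold wt
      rw [← exp_add, has, hx]
      congr 1
      ring
    have hA := h3' T e2 s hs1 hs2 n hn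
    have hnorm : Real.exp (-s.re * ell n - τ * (ell n) ^ 2 + 2 * τ * ell n * (a s).re) =
        ‖cexp (-s * ell n - τ * (ell n) ^ 2 + 2 * τ * ell n * a s)‖ := by
      rw [Complex.norm_exp]
      congr 1
      have h1 : ((ell n : ℂ) ^ 2).re = ell n ^ 2 := by
        rw [← ofReal_pow, ofReal_re]
      simp only [add_re, sub_re, mul_re, neg_re, neg_im, ofReal_re, ofReal_im,
        mul_im, re_ofNat, im_ofNat, h1]
      ring
    rw [hnorm, hterm, norm_mul, norm_wt] at hA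
    have hwp0 : 0 ≤ wp τ T s.re n := (Real.exp_pos _).le
    have hsplit : Tm τ n s - E τ s * wt τ T s n =
        (Tm τ n s - E τ s * (wt τ T s n * cexp x)) + E τ s * (wt τ T s n * (cexp x - 1)) := by
      ring
    rw [hsplit]
    refine (norm_add_le _ _).trans ?_
    rw [norm_mul (E τ s), norm_mul (wt τ T s n), norm_wt]
    have h10 : T ^ (-(1 / 3) : ℝ) * ‖E τ s‖ * (wp τ T s.re n * ‖cexp x‖) ≤
        T ^ (-(1 / 3) : ℝ) * ‖E τ s‖ * (wp τ T s.re n * 3) :=
      mul_le_mul_of_nonneg_left (mul_le_mul_of_nonneg_left hex3 hwp0) (by positivity)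
    have h11 : ‖E τ s‖ * (wp τ T s.re n * ‖cexp x - 1‖) ≤
        ‖E τ s‖ * (wp τ T s.re n * T ^ (-(1 / 3) : ℝ)) :=
      mul_le_mul_of_nonneg_left (mul_le_mul_of_nonneg_left (hex.trans hxn) hwp0) hE0
    calc ‖Tm τ n s - E τ s * (wt τ T s n * cexp x)‖ +
          ‖E τ s‖ * (wp τ T s.re n * ‖cexp x - 1‖) ≤
        T ^ (-(1 / 3) : ℝ) * ‖E τ s‖ * (wp τ T s.re n * 3) +
          ‖E τ s‖ * (wp τ T s.re n * T ^ (-(1 / 3) : ℝ)) :=
          add_le_add (hA.trans h10) h11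
      _ = _ := by ring
  -- large `n`
  have hLL : LL T ≤ Real.log T / 2 := by
    unfold LL
    apply div_le_div_of_nonneg_right _ (by norm_num)
    apply Real.log_le_log (by positivity)
    apply div_le_self hT0.le
    linarith [Real.pi_gt_three]
  have hlarge : ∀ n : ℕ, C * Real.log T < ell n →
      wp τ T s.re n ≤ T⁻¹ * T⁻¹ * Real.exp (-2 * ell n) := by
    intro n hn
    have hl := ell_nonneg n
    have hTi : T⁻¹ * T⁻¹ = Real.exp (-(2 * Real.log T)) := by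
      rw [Real.exp_neg, two_mul, Real.exp_add, Real.exp_log hT0, mul_inv]
    rw [hTi, ← Real.exp_add]
    unfold wp
    apply Real.exp_le_exp.2
    have h12 : -s.re * ell n ≤ B * Real.log T * ell n := by
      apply mul_le_mul_of_nonneg_right _ hl
      exact (neg_le_abs _).trans hs2
    have h13 : 2 * τ * ell n * LL T ≤ τ * ell n * Real.log T := by
      calc 2 * τ * ell n * LL T ≤ 2 * τ * ell n * (Real.log T / 2) :=
            mul_le_mul_of_nonneg_left hLL (by positivity)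
        _ = _ := by ring
    have h14 : τ * (C * Real.log T) * ell n ≤ τ * (ell n) ^ 2 := by
      have h14' := mul_le_mul_of_nonneg_right (mul_le_mul_of_nonneg_left hn.le hτ.le) hl
      calc τ * (C * Real.log T) * ell n ≤ τ * ell n * ell n := h14'
        _ = _ := by ring
    have h15 : (B + τ + 3) * Real.log T * ell n ≤ τ * C * Real.log T * ell n :=
      mul_le_mul_of_nonneg_right (mul_le_mul_of_nonneg_right hCB' (by linarith)) hl
    have h16 : 2 * Real.log T ≤ ell n := by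
      refine le_trans ?_ hn.le
      exact mul_le_mul_of_nonneg_right hC2 (by linarith)
    have h17 : ell n ≤ Real.log T * ell n := by
      nlinarith
    have h18 : ell n * 2 ≤ Real.log T * ell n * 2 := by linarith
    nlinarith [h12, h13, h14, h15, h16, h17]
  -- the bound for every `n`
  obtain ⟨hsumTm, hX⟩ := h1 τ hτ s
  have hsumIf : Summable fun n : ℕ => if C₂ * Real.log T < ell n then ‖Tm τ n s‖ else 0 := by
    refine Summable.of_nonneg_of_le (fun n => ?_) (fun n => ?_) hsumTm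
    · split_ifs
      · exact norm_nonneg _
      · exact le_refl _
    · split_ifs
      · exact le_refl _
      · exact norm_nonneg _
  have hA4 := h4' T e1 s hs1 hs2
  have hptw : ∀ n : ℕ, ‖Tm τ n s - E τ s * wt τ T s n‖ ≤
      4 * T ^ (-(1 / 3) : ℝ) * ‖E τ s‖ * wp τ T s.re n +
        ((if C₂ * Real.log T < ell n then ‖Tm τ n s‖ else 0) +
          ‖E τ s‖ * (T⁻¹ * T⁻¹) * Real.exp (-2 * ell n)) := by
    intro n
    have hwp0 : 0 ≤ wp τ T s.re n := (Real.exp_pos _).le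
    by_cases hn : ell n ≤ C * Real.log T
    · refine (hsmall n hn).trans (le_add_of_nonneg_right ?_)
      have h19 : (0 : ℝ) ≤ if C₂ * Real.log T < ell n then ‖Tm τ n s‖ else 0 := by
        split_ifs
        · exact norm_nonneg _
        · exact le_refl _
      positivity
    · push Not at hn
      have hn2 : C₂ * Real.log T < ell n :=
        lt_of_le_of_lt (mul_le_mul_of_nonneg_right hCC₂ (by linarith)) hn
      rw [if_pos hn2]
      refine (norm_sub_le _ _).trans ?_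
      rw [norm_mul, norm_wt]
      have h20 := mul_le_mul_of_nonneg_left (hlarge n hn) hE0
      have h21 : 0 ≤ 4 * T ^ (-(1 / 3) : ℝ) * ‖E τ s‖ * wp τ T s.re n := by positivity
      nlinarith
  have hbsum : HasSum (fun n : ℕ => 4 * T ^ (-(1 / 3) : ℝ) * ‖E τ s‖ * wp τ T s.re n +
        ((if C₂ * Real.log T < ell n then ‖Tm τ n s‖ else 0) +
          ‖E τ s‖ * (T⁻¹ * T⁻¹) * Real.exp (-2 * ell n)))
      (4 * T ^ (-(1 / 3) : ℝ) * ‖E τ s‖ * Wp τ T s.re +
        ((∑' n : ℕ, if C₂ * Real.log T < ell n then ‖Tm τ n s‖ else 0) +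
          ‖E τ s‖ * (T⁻¹ * T⁻¹) * S)) := by
    refine HasSum.add ?_ (HasSum.add hsumIf.hasSum (hSsum.mul_left _))
    exact ((wp_summable hτ T s.re).hasSum).mul_left _
  have hwtsum : Summable (wt τ T s) := by
    apply Summable.of_norm
    simp_rw [norm_wt]
    exact wp_summable hτ T s.re
  have hTmsum : Summable fun n => Tm τ n s := hsumTm.of_norm
  have hdiff : X τ s - E τ s * W τ T s = ∑' n : ℕ, (Tm τ n s - E τ s * wt τ T s n) := by
    rw [hTmsum.tsum_sub (hwtsum.mul_left _), tsum_mul_left, hX]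
    rfl
  rw [hdiff]
  refine (tsum_of_norm_bounded hbsum hptw).trans ?_
  have hWp1 := one_le_Wp hτ T s.re
  have hTi : T⁻¹ ≤ T ^ (-(1 / 3) : ℝ) := by
    rw [← Real.rpow_neg_one]
    exact Real.rpow_le_rpow_of_exponent_le (by linarith) (by norm_num)
  have hTS : T⁻¹ * T⁻¹ * S ≤ T⁻¹ := by
    have h22 : T⁻¹ * S ≤ 1 := by
      rw [inv_mul_le_iff₀ hT0]
      linarith
    have h23 : 0 ≤ T⁻¹ := by positivity
    calc T⁻¹ * T⁻¹ * S = T⁻¹ * (T⁻¹ * S) := by ring
      _ ≤ T⁻¹ * 1 := mul_le_mul_of_nonneg_left h22 h23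
      _ = _ := mul_one _
  have hkey : 6 * T ^ (-(1 / 3) : ℝ) ≤ T ^ (-(1 / 4) : ℝ) := by
    have h24 : (6 : ℝ) ≤ T ^ (1 / 12 : ℝ) := by
      have : (6 : ℝ) = ((6 : ℝ) ^ 12) ^ (1 / 12 : ℝ) := by
        rw [← Real.rpow_natCast, ← Real.rpow_mul (by norm_num)]
        norm_num
      rw [this]
      exact Real.rpow_le_rpow (by positivity) e5 (by norm_num)
    calc 6 * T ^ (-(1 / 3) : ℝ) ≤ T ^ (1 / 12 : ℝ) * T ^ (-(1 / 3) : ℝ) :=
          mul_le_mul_of_nonneg_right h24 hT13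
      _ = _ := by
          rw [← Real.rpow_add hT0]
          norm_num
  have h25 : ‖E τ s‖ * (T⁻¹ * T⁻¹) * S ≤ ‖E τ s‖ * T ^ (-(1 / 3) : ℝ) := by
    rw [mul_assoc]
    exact mul_le_mul_of_nonneg_left (hTS.trans hTi) hE0
  have h26 : T⁻¹ * ‖E τ s‖ ≤ ‖E τ s‖ * T ^ (-(1 / 3) : ℝ) := by
    rw [mul_comm]
    exact mul_le_mul_of_nonneg_left hTi hE0
  have h27 : ‖E τ s‖ * T ^ (-(1 / 3) : ℝ) ≤ ‖E τ s‖ * T ^ (-(1 / 3) : ℝ) * Wp τ T s.re :=
    le_mul_of_one_le_right (by positivity) hWp1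
  calc 4 * T ^ (-(1 / 3) : ℝ) * ‖E τ s‖ * Wp τ T s.re +
        ((∑' n : ℕ, if C₂ * Real.log T < ell n then ‖Tm τ n s‖ else 0) +
          ‖E τ s‖ * (T⁻¹ * T⁻¹) * S)
      ≤ 4 * T ^ (-(1 / 3) : ℝ) * ‖E τ s‖ * Wp τ T s.re +
        (‖E τ s‖ * T ^ (-(1 / 3) : ℝ) * Wp τ T s.re +
          ‖E τ s‖ * T ^ (-(1 / 3) : ℝ) * Wp τ T s.re) := by
        linarith
    _ = 6 * T ^ (-(1 / 3) : ℝ) * (‖E τ s‖ * Wp τ T s.re) := by ring
    _ ≤ T ^ (-(1 / 4) : ℝ) * (‖E τ s‖ * Wp τ T s.re) :=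
        mul_le_mul_of_nonneg_right hkey (by positivity)
    _ = _ := by ring

end Pool.Agent.H902R3.XI
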